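import Pool.Agent.Helper89.Hole.MDefs

/-!
The last but one phase of Maker's strategy in the 5-hole game (problem MP_91a033_co):
a far point turns one of `s + 1` long thin triangles into a 4-hole.
-/

namespace KHole

namespace Ph3

open Filter

theorem hull_ineq {T : Set Pt} (p q r : ℝ) (h : ∀ v ∈ T, 0 ≤ p * v.1 + q * v.2 + r) {z : Pt}
    (hz : z ∈ convexHull ℝ T) : 0 ≤ p * z.1 + q * z.2 + r := by
  have hc : Convex ℝ {v : Pt | 0 ≤ p * v.1 + q * v.2 + r} := by
    intro x hx y hy a b ha hb hab
    have hx' : 0 ≤ p * x.1 + q * x.2 + r := hx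
    have hy' : 0 ≤ p * y.1 + q * y.2 + r := hy
    have h1 := mul_nonneg ha hx'
    have h2 := mul_nonneg hb hy'
    change 0 ≤ p * (a * x.1 + b * y.1) + q * (a * x.2 + b * y.2) + r
    have h3 : p * (a * x.1 + b * y.1) + q * (a * x.2 + b * y.2) + r =
        a * (p * x.1 + q * x.2 + r) + b * (p * y.1 + q * y.2 + r) := by
      linear_combination (-r) * hab
    rw [h3]
    exact add_nonneg h1 h2
  exact convexHull_min h hc hz

theorem ev_pos (a b : ℝ) (ha : 0 < a) : ∀ᶠ X : ℝ in atTop, 0 < a * X + b := by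
  filter_upwards [eventually_gt_atTop (-b / a)] with X hX
  have := (div_lt_iff₀ ha).1 hX
  linarith

theorem ev_ne (a b : ℝ) (h : a ≠ 0 ∨ b ≠ 0) : ∀ᶠ X : ℝ in atTop, a * X + b ≠ 0 := by
  rcases lt_trichotomy a 0 with h1 | h1 | h1
  · filter_upwards [ev_pos (-a) (-b) (by linarith)] with X hX h2
    linarith
  · subst h1
    have hb : b ≠ 0 := by
      rcases h with h | h
      · exact absurd rfl h
      · exact h
    exact Eventually.of_forall fun X => by simpa using hb
  · filter_upwards [ev_pos a b h1] with X hX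
    exact hX.ne'

/-- height in the sheared coordinates -/
def sh (σ : ℝ) (z : Pt) : ℝ := z.2 - σ * z.1

theorem det3_sh (σ : ℝ) (a b z : Pt) : det3 a b z =
    (b.1 - a.1) * (sh σ z - sh σ a) - (sh σ b - sh σ a) * (z.1 - a.1) := by
  unfold det3 sh
  ring

/-- the far point -/
def far (σ X H : ℝ) : Pt := (X, σ * X + H)

theorem sh_far (σ X H : ℝ) : sh σ (far σ X H) = H := by
  unfold sh far
  ring

/-- data of one thin triangle and the far point -/
structure Tri (σ cc X H : ℝ) (m a b : Pt) : Prop where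
  ha : sh σ a = cc
  hb : sh σ b = cc
  hx1 : m.1 < a.1
  hx2 : a.1 < b.1
  hm : cc < sh σ m
  hH : sh σ m < H
  hX : b.1 < X

variable {σ cc X H : ℝ} {m a b z : Pt}

/-- the four points -/
noncomputable def quad (σ X H : ℝ) (m a b : Pt) : Finset Pt := {m, a, b, far σ X H}

theorem mem_quad : z ∈ quad σ X H m a b ↔ z = m ∨ z = a ∨ z = b ∨ z = far σ X H := by
  simp [quad]

theorem hull_quad (hz : z ∈ convexHull ℝ (quad σ X H m a b : Set Pt)) (p q r : ℝ)
    (h1 : 0 ≤ p * m.1 + q * m.2 + r) (h2 : 0 ≤ p * a.1 + q * a.2 + r)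
    (h3 : 0 ≤ p * b.1 + q * b.2 + r) (h4 : 0 ≤ p * X + q * (σ * X + H) + r) :
    0 ≤ p * z.1 + q * z.2 + r := by
  refine hull_ineq p q r (fun v hv => ?_) hz
  rcases mem_quad.1 (Finset.mem_coe.1 hv) with rfl | rfl | rfl | rfl
  · exact h1
  · exact h2
  · exact h3
  · exact h4

namespace Tri

variable (T : Tri σ cc X H m a b)
include T

theorem i1 (hz : z ∈ convexHull ℝ (quad σ X H m a b : Set Pt)) : cc ≤ sh σ z := by
  have e1 := T.ha; have e2 := T.hb; have e3 := T.hm; have e4 := T.hH
  unfold sh at *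
  have := hull_quad hz (-σ) 1 (-cc) (by linarith) (by linarith) (by linarith) (by linarith)
  linarith

theorem i5 (hz : z ∈ convexHull ℝ (quad σ X H m a b : Set Pt)) : z.1 ≤ X := by
  have e1 := T.hx1; have e2 := T.hx2; have e3 := T.hX
  have := hull_quad hz (-1) 0 X (by linarith) (by linarith) (by linarith) (by linarith)
  linarith

theorem i2 (hz : z ∈ convexHull ℝ (quad σ X H m a b : Set Pt)) : 0 ≤ det3 m a z := by
  have e1 := T.ha; have e2 := T.hb; have e3 := T.hm; have e4 := T.hH
  have e5 := T.hx1; have e6 := T.hx2; have e7 := T.hX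
  have key : ∀ w : Pt, det3 m a w = (-(a.2 - m.2)) * w.1 + (a.1 - m.1) * w.2 +
      (-(a.1 - m.1) * m.2 + (a.2 - m.2) * m.1) := by
    intro w
    unfold det3
    ring
  have hm' : det3 m a m = 0 := by unfold det3; ring
  have ha' : det3 m a a = 0 := by unfold det3; ring
  have hb' : 0 ≤ det3 m a b := by
    rw [det3_sh σ, e1, e2]
    nlinarith
  have hf' : 0 ≤ det3 m a (far σ X H) := by
    rw [det3_sh σ, e1, sh_far]
    have h1 : 0 ≤ (a.1 - m.1) * (H - sh σ m) := by
      apply mul_nonneg <;> linarith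
    have h2 : 0 ≤ (sh σ m - cc) * ((far σ X H).1 - m.1) := by
      apply mul_nonneg
      · linarith
      · change 0 ≤ X - m.1
        linarith
    linarith
  rw [key] at hm' ha' hb' hf'
  rw [key]
  exact hull_quad hz _ _ _ hm'.ge ha'.ge hb' hf'

theorem i3 (hz : z ∈ convexHull ℝ (quad σ X H m a b : Set Pt)) :
    (X - m.1) * (sh σ z - sh σ m) ≤ (H - sh σ m) * (z.1 - m.1) := by
  have e1 := T.ha; have e2 := T.hb; have e3 := T.hm; have e4 := T.hH
  have e5 := T.hx1; have e6 := T.hx2; have e7 := T.hX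
  have key : ∀ w : Pt, -det3 m (far σ X H) w = ((H - sh σ m) + σ * (X - m.1)) * w.1 +
      (-(X - m.1)) * w.2 + (-(H - sh σ m) * m.1 + (X - m.1) * sh σ m) := by
    intro w
    rw [det3_sh σ, sh_far]
    unfold sh
    change -((X - m.1) * _ - _) = _
    ring
  have hm' : -det3 m (far σ X H) m = 0 := by unfold det3; ring
  have hf' : -det3 m (far σ X H) (far σ X H) = 0 := by unfold det3; ring
  have ha' : 0 ≤ -det3 m (far σ X H) a := by
    rw [det3_sh σ, e1, sh_far]
    have h1 : 0 ≤ (H - sh σ m) * (a.1 - m.1) := by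
      apply mul_nonneg <;> linarith
    have h2 : 0 ≤ ((far σ X H).1 - m.1) * (sh σ m - cc) := by
      apply mul_nonneg
      · change 0 ≤ X - m.1
        linarith
      · linarith
    linarith
  have hb' : 0 ≤ -det3 m (far σ X H) b := by
    rw [det3_sh σ, e2, sh_far]
    have h1 : 0 ≤ (H - sh σ m) * (b.1 - m.1) := by
      apply mul_nonneg <;> linarith
    have h2 : 0 ≤ ((far σ X H).1 - m.1) * (sh σ m - cc) := by
      apply mul_nonneg
      · change 0 ≤ X - m.1
        linarith
      · linarith
    linarith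
  rw [key] at hm' ha' hb' hf'
  have h := hull_quad hz _ _ _ hm'.ge ha' hb' hf'.ge
  rw [← key, det3_sh σ, sh_far] at h
  change 0 ≤ -((X - m.1) * _ - _) at h
  linarith

theorem i4 (hz : z ∈ convexHull ℝ (quad σ X H m a b : Set Pt)) :
    (H - cc) * (z.1 - b.1) ≤ (X - b.1) * (sh σ z - cc) := by
  have e1 := T.ha; have e2 := T.hb; have e3 := T.hm; have e4 := T.hH
  have e5 := T.hx1; have e6 := T.hx2; have e7 := T.hX
  have key : ∀ w : Pt, det3 b (far σ X H) w = (-(H - cc) - σ * (X - b.1)) * w.1 +
      (X - b.1) * w.2 + ((H - cc) * b.1 - (X - b.1) * cc) := by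
    intro w
    rw [det3_sh σ, sh_far, e2]
    unfold sh
    change (X - b.1) * _ - _ = _
    ring
  have hb' : det3 b (far σ X H) b = 0 := by unfold det3; ring
  have hf' : det3 b (far σ X H) (far σ X H) = 0 := by unfold det3; ring
  have ha' : 0 ≤ det3 b (far σ X H) a := by
    rw [det3_sh σ, e1, e2, sh_far]
    have h1 : 0 ≤ (H - cc) * (b.1 - a.1) := by
      apply mul_nonneg <;> linarith
    linarith
  have hm' : 0 ≤ det3 b (far σ X H) m := by
    rw [det3_sh σ, e2, sh_far]
    have h1 : 0 ≤ (H - cc) * (b.1 - m.1) := by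
      apply mul_nonneg <;> linarith
    have h2 : 0 ≤ ((far σ X H).1 - b.1) * (sh σ m - cc) := by
      apply mul_nonneg
      · change 0 ≤ X - b.1
        linarith
      · linarith
    linarith
  rw [key] at hm' ha' hb' hf'
  have h := hull_quad hz _ _ _ hm' ha' hb'.ge hf'.ge
  rw [← key, det3_sh σ, sh_far, e2] at h
  change 0 ≤ (X - b.1) * _ - _ at h
  linarith

theorem card_quad : (quad σ X H m a b).card = 4 := by
  have e5 := T.hx1; have e6 := T.hx2; have e7 := T.hX
  have h1 : m ≠ a := fun h => by rw [h] at e5; exact lt_irrefl _ e5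
  have h2 : m ≠ b := fun h => by rw [h] at e5; linarith
  have h3 : a ≠ b := fun h => by rw [h] at e6; exact lt_irrefl _ e6
  have hf : (far σ X H).1 = X := rfl
  have h4 : m ≠ far σ X H := fun h => by rw [h, hf] at e5; linarith
  have h5 : a ≠ far σ X H := fun h => by rw [h, hf] at e6; linarith
  have h6 : b ≠ far σ X H := fun h => by rw [h, hf] at e7; exact lt_irrefl _ e7
  rw [quad, Finset.card_insert_of_notMem, Finset.card_insert_of_notMem,
    Finset.card_insert_of_notMem, Finset.card_singleton]
  · simpa using h6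
  · simp [h3, h5]
  · simp [h1, h2, h4]

theorem convex_pos (x : Pt) (hx : x ∈ quad σ X H m a b) :
    x ∉ convexHull ℝ (((quad σ X H m a b).erase x : Finset Pt) : Set Pt) := by
  have e1 := T.ha; have e2 := T.hb; have e3 := T.hm; have e4 := T.hH
  have e5 := T.hx1; have e6 := T.hx2; have e7 := T.hX
  have hf : (far σ X H).1 = X := rfl
  have sep : ∀ p q r : ℝ, p * x.1 + q * x.2 + r < 0 →
      (∀ v ∈ quad σ X H m a b, v ≠ x → 0 ≤ p * v.1 + q * v.2 + r) →
      x ∉ convexHull ℝ (((quad σ X H m a b).erase x : Finset Pt) : Set Pt) := by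
    intro p q r hneg hpos hmem
    have := hull_ineq p q r (fun v hv => by
      have hv' := Finset.mem_erase.1 (Finset.mem_coe.1 hv)
      exact hpos v hv'.2 hv'.1) hmem
    linarith
  rcases mem_quad.1 hx with rfl | rfl | rfl | rfl
  · -- x = m
    refine sep 1 0 (-a.1) (by linarith) fun v hv hne => ?_
    rcases mem_quad.1 hv with rfl | rfl | rfl | rfl
    · exact absurd rfl hne
    · linarith
    · linarith
    · rw [hf]; linarith
  · -- x = a
    have key : ∀ w : Pt, det3 m b w = (-(b.2 - m.2)) * w.1 + (b.1 - m.1) * w.2 +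
        (-(b.1 - m.1) * m.2 + (b.2 - m.2) * m.1) := by
      intro w
      unfold det3
      ring
    refine sep (-(b.2 - m.2)) (b.1 - m.1) (-(b.1 - m.1) * m.2 + (b.2 - m.2) * m.1) ?_
      fun v hv hne => ?_
    · rw [← key, det3_sh σ, e1, e2]
      nlinarith
    · rw [← key, det3_sh σ, e2]
      rcases mem_quad.1 hv with rfl | rfl | rfl | rfl
      · linarith
      · exact absurd rfl hne
      · rw [e2]; linarith
      · rw [sh_far, hf]
        have h1 : 0 ≤ (b.1 - m.1) * (H - sh σ m) := by
          apply mul_nonneg <;> linarith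
        have h2 : 0 ≤ (sh σ m - cc) * (X - m.1) := by
          apply mul_nonneg <;> linarith
        linarith
  · -- x = b
    have key : ∀ w : Pt, det3 a (far σ X H) w = (-(H - cc) - σ * (X - a.1)) * w.1 +
        (X - a.1) * w.2 + ((H - cc) * a.1 - (X - a.1) * cc) := by
      intro w
      rw [det3_sh σ, sh_far, e1]
      unfold sh
      change (X - a.1) * _ - _ = _
      ring
    refine sep (-(H - cc) - σ * (X - a.1)) (X - a.1) ((H - cc) * a.1 - (X - a.1) * cc) ?_
      fun v hv hne => ?_
    · rw [← key, det3_sh σ, sh_far, e1, e2]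
      have h1 : 0 < (H - cc) * (x.1 - a.1) := by
        apply mul_pos <;> linarith
      linarith
    · rw [← key, det3_sh σ, sh_far, e1, hf]
      rcases mem_quad.1 hv with rfl | rfl | rfl | rfl
      · have h1 : 0 ≤ (H - cc) * (a.1 - v.1) := by
          apply mul_nonneg <;> linarith
        have h2 : 0 ≤ (X - a.1) * (sh σ v - cc) := by
          apply mul_nonneg <;> linarith
        linarith
      · rw [e1]; linarith
      · exact absurd rfl hne
      · rw [sh_far, hf]; linarith
  · -- x = far
    refine sep (-1) 0 b.1 (by rw [hf]; linarith) fun v hv hne => ?_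
    rcases mem_quad.1 hv with rfl | rfl | rfl | rfl
    · linarith
    · linarith
    · linarith
    · exact absurd rfl hne

end Tri

theorem meet {cc' : ℝ} {m' a' b' : Pt} (T : Tri σ cc X H m a b) (T' : Tri σ cc' X H m' a' b')
    (hX : (H - cc') * (X - m.1) < (H - sh σ m) * (X - b'.1))
    (hz : z ∈ convexHull ℝ (quad σ X H m a b : Set Pt))
    (hz' : z ∈ convexHull ℝ (quad σ X H m' a' b' : Set Pt)) : z = far σ X H := by
  have h3 := T.i3 hz
  have h4 := T'.i4 hz'
  have h5 := T.i5 hz
  have e1 := T.hx1; have e2 := T.hx2; have e3 := T.hX; have e4 := T'.hX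
  have hP : 0 < X - m.1 := by linarith
  have hQ : 0 < X - b'.1 := by linarith
  have g1 : (H - sh σ m) * (X - z.1) ≤ (X - m.1) * (H - sh σ z) := by linarith
  have g2 : (X - b'.1) * (H - sh σ z) ≤ (H - cc') * (X - z.1) := by linarith
  have g3 := mul_le_mul_of_nonneg_left g1 hQ.le
  have g4 := mul_le_mul_of_nonneg_left g2 hP.le
  have g5 : ((H - sh σ m) * (X - b'.1) - (H - cc') * (X - m.1)) * (X - z.1) ≤ 0 := by
    nlinarith
  have g6 : X - z.1 ≤ 0 := by
    by_contra hcon
    push Not at hcon
    have := mul_pos (sub_pos.2 hX) hcon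
    linarith
  have g7 : z.1 = X := by linarith
  rw [g7, sub_self, mul_zero] at g1 g2
  have g8 : 0 ≤ H - sh σ z := by
    by_contra hcon
    push Not at hcon
    have := mul_neg_of_pos_of_neg hP hcon
    linarith
  have g9 : H - sh σ z ≤ 0 := by
    by_contra hcon
    push Not at hcon
    have := mul_pos hQ hcon
    linarith
  have g10 : sh σ z = H := by linarith
  refine Prod.ext g7 ?_
  unfold sh at g10
  change z.2 = σ * X + H
  rw [g7] at g10
  linarith

theorem genPos_insert {S : Finset Pt} {w : Pt} (hS : GenPos S)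
    (h : ∀ a ∈ S, ∀ b ∈ S, a ≠ b → det3 a b w ≠ 0) : GenPos (insert w S) := by
  intro a ha b hb d hd hab had hbd
  rw [collinear_iff_det3]
  rcases Finset.mem_insert.1 ha with rfl | ha1
  · have hb1 := (Finset.mem_insert.1 hb).resolve_left (fun e => hab e.symm)
    have hd1 := (Finset.mem_insert.1 hd).resolve_left (fun e => had e.symm)
    have := h b hb1 d hd1 hbd
    intro h0
    apply this
    rw [← h0]
    unfold det3
    ring
  · rcases Finset.mem_insert.1 hb with rfl | hb1
    · have hd1 := (Finset.mem_insert.1 hd).resolve_left (fun e => hbd e.symm)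
      have := h a ha1 d hd1 had
      intro h0
      apply this
      have e : det3 a d b = -det3 a b d := by unfold det3; ring
      rw [e, h0, neg_zero]
    · rcases Finset.mem_insert.1 hd with rfl | hd1
      · exact h a ha1 b hb1 hab
      · have := hS a ha1 b hb1 d hd1 hab had hbd
        rwa [collinear_iff_det3] at this

end Ph3

open Ph3 Filter in
theorem reach_phase3 {s : ℕ} (c : ℕ → ℕ) (hc : ∀ n, c n ≤ s) (n : ℕ) (M B : Finset Pt)
    (h : Phase2 (s+1) n M B) : Reach c Phase3 n M B := by
  classical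
  obtain ⟨⟨hdis, hgen⟩, σ, cc, m, a, b, hmem, hcc, hx, hlow, hsep, hempty⟩ := h
  set S := M ∪ B with hS
  -- the height
  obtain ⟨H, hH⟩ : ∃ H : ℝ, ∀ z ∈ S, sh σ z < H := by
    refine ⟨∑ z ∈ S, |sh σ z| + 1, fun z hz => ?_⟩
    have h1 : |sh σ z| ≤ ∑ z ∈ S, |sh σ z| :=
      Finset.single_le_sum (f := fun z => |sh σ z|) (fun _ _ => abs_nonneg _) hz
    have h2 := le_abs_self (sh σ z)
    linarith
  have hmS : ∀ i, m i ∈ S := fun i => Finset.mem_union_left _ (hmem i).1
  have hbS : ∀ i, b i ∈ S := fun i => Finset.mem_union_left _ (hmem i).2.2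
  -- conditions on the abscissa
  have c1 : ∀ᶠ X : ℝ in atTop, ∀ z ∈ S, z.1 < X := by
    rw [eventually_all_finset]
    exact fun z _ => eventually_gt_atTop _
  have c2 : ∀ᶠ X : ℝ in atTop, ∀ z ∈ S, ∀ w ∈ S, z ≠ w → det3 z w (far σ X H) ≠ 0 := by
    rw [eventually_all_finset]
    intro z hz
    rw [eventually_all_finset]
    intro w hw
    by_cases hzw : z = w
    · exact Eventually.of_forall fun X h => absurd hzw h
    have h0 : -(sh σ w - sh σ z) ≠ 0 ∨
        (w.1 - z.1) * (H - sh σ z) + (sh σ w - sh σ z) * z.1 ≠ 0 := by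
      by_cases he : sh σ w = sh σ z
      · right
        rw [he, sub_self, zero_mul, add_zero]
        have h1 : w.1 - z.1 ≠ 0 := by
          intro h1
          apply hzw
          have h2 : w.1 = z.1 := by linarith
          refine (Prod.ext h2 ?_).symm
          unfold sh at he
          rw [h2] at he
          linarith
        exact mul_ne_zero h1 (by have := hH z hz; linarith)
      · left
        intro h1
        apply he
        linarith
    filter_upwards [ev_ne _ _ h0] with X hX _ h1
    apply hX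
    rw [← h1, det3_sh σ, sh_far]
    change _ = (w.1 - z.1) * _ - _ * (X - z.1)
    ring
  have c3 : ∀ᶠ X : ℝ in atTop, ∀ i : Fin (s+1), ∀ z ∈ S, sh σ (m i) < sh σ z →
      (H - sh σ (m i)) * (z.1 - (m i).1) < (X - (m i).1) * (sh σ z - sh σ (m i)) := by
    rw [eventually_all]
    intro i
    rw [eventually_all_finset]
    intro z _
    by_cases hlt : sh σ (m i) < sh σ z
    · filter_upwards [ev_pos (sh σ z - sh σ (m i))
        (-(m i).1 * (sh σ z - sh σ (m i)) - (H - sh σ (m i)) * (z.1 - (m i).1))
        (by linarith)] with X hX _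
      linarith
    · exact Eventually.of_forall fun X h => absurd h hlt
  have c4 : ∀ᶠ X : ℝ in atTop, ∀ i j : Fin (s+1), sh σ (m i) < cc j →
      (H - cc j) * (X - (m i).1) < (H - sh σ (m i)) * (X - (b j).1) := by
    rw [eventually_all]
    intro i
    rw [eventually_all]
    intro j
    by_cases hlt : sh σ (m i) < cc j
    · filter_upwards [ev_pos (cc j - sh σ (m i))
        ((H - cc j) * (m i).1 - (H - sh σ (m i)) * (b j).1) (by linarith)] with X hX _
      linarith
    · exact Eventually.of_forall fun X h => absurd h hlt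
  obtain ⟨X, c1, c2, c3, c4⟩ := (c1.and (c2.and (c3.and c4))).exists
  have hT : ∀ i, Tri σ (cc i) X H (m i) (a i) (b i) := fun i =>
    ⟨(hcc i).1, (hcc i).2, (hx i).1, (hx i).2, hlow i, hH _ (hmS i), c1 _ (hbS i)⟩
  -- points of the position
  have E1 : ∀ i, ∀ z ∈ S, z ∈ convexHull ℝ (quad σ X H (m i) (a i) (b i) : Set Pt) →
      z ∈ quad σ X H (m i) (a i) (b i) := by
    intro i z hz hzT
    by_cases hlt : sh σ (m i) < sh σ z
    · have h1 := c3 i z hz hlt
      have h2 := (hT i).i3 hzT
      exact absurd h1 (not_lt.2 h2)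
    · have h1 := hempty i z hz ((hT i).i1 hzT) (not_lt.1 hlt) ((hT i).i2 hzT)
      rw [mem_quad]
      rcases h1 with h1 | h1 | h1
      · exact Or.inl h1
      · exact Or.inr (Or.inl h1)
      · exact Or.inr (Or.inr (Or.inl h1))
  have E3 : ∀ i j, i ≠ j → ∀ z, z ∈ convexHull ℝ (quad σ X H (m i) (a i) (b i) : Set Pt) →
      z ∈ convexHull ℝ (quad σ X H (m j) (a j) (b j) : Set Pt) → z = far σ X H := by
    intro i j hij z hi hj
    rcases hsep i j hij with h1 | h1
    · exact meet (hT i) (hT j) (c4 i j h1) hi hj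
    · exact meet (hT j) (hT i) (c4 j i h1) hj hi
  have hfS : far σ X H ∉ S := fun h => lt_irrefl _ (c1 _ h)
  refine Reach.step n M B (far σ X H) ⟨hfS, genPos_insert hgen c2⟩ fun R hR => ?_
  obtain ⟨hRc, hRd, hRg⟩ := hR
  have hfR : far σ X H ∉ R := fun h =>
    Finset.disjoint_left.1 hRd h (Finset.mem_union_left _ (Finset.mem_insert_self _ _))
  -- some quadrilateral is free of points of `R`
  obtain ⟨i, hi⟩ : ∃ i : Fin (s+1), ∀ r ∈ R,
      r ∉ convexHull ℝ (quad σ X H (m i) (a i) (b i) : Set Pt) := by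
    by_contra hcon
    push Not at hcon
    choose f hfR' hf using hcon
    have hinj : Set.InjOn f (Finset.univ : Finset (Fin (s+1))) := by
      intro i _ j _ hij
      by_contra hne
      have h1 := E3 i j hne (f i) (hf i) (by rw [hij]; exact hf j)
      exact hfR (h1 ▸ hfR' i)
    have h1 := Finset.card_le_card_of_injOn f (fun i _ => hfR' i) hinj
    rw [Finset.card_univ, Fintype.card_fin, hRc] at h1
    have := hc n
    omega
  refine Reach.here _ _ _ ⟨⟨?_, ?_⟩, quad σ X H (m i) (a i) (b i), ?_, ?_, (hT i).card_quad,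
    (hT i).convex_pos, ?_⟩
  · rw [Finset.disjoint_union_right, Finset.disjoint_insert_left]
    refine ⟨⟨fun h => hfS (Finset.mem_union_right _ h), hdis⟩, ?_⟩
    exact (Finset.disjoint_of_subset_right Finset.subset_union_left hRd).symm
  · rw [← Finset.union_assoc]
    exact hRg
  · intro z hz
    rcases mem_quad.1 hz with rfl | rfl | rfl | rfl
    · exact Finset.mem_insert_of_mem (hmem i).1
    · exact Finset.mem_insert_of_mem (hmem i).2.1
    · exact Finset.mem_insert_of_mem (hmem i).2.2
    · exact Finset.mem_insert_self _ _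
  · intro z hz
    apply Finset.mem_union_left
    rcases mem_quad.1 hz with rfl | rfl | rfl | rfl
    · exact Finset.mem_insert_of_mem (hmem i).1
    · exact Finset.mem_insert_of_mem (hmem i).2.1
    · exact Finset.mem_insert_of_mem (hmem i).2.2
    · exact Finset.mem_insert_self _ _
  · intro z hz hzT
    rcases Finset.mem_union.1 hz with hz | hz
    · rcases Finset.mem_insert.1 hz with rfl | hz
      · exact mem_quad.2 (Or.inr (Or.inr (Or.inr rfl)))
      · exact E1 i z (Finset.mem_union_left _ hz) hzT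
    · rcases Finset.mem_union.1 hz with hz | hz
      · exact E1 i z (Finset.mem_union_right _ hz) hzT
      · exact absurd hzT (hi z hz)

end KHole
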